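import Mathlib
import Pool.Agent.Helper140.SelfInv

set_option autoImplicit false

namespace Pool.Agent.Results.MP_c7fa02_an.BothReflections

/-- Let `P` be a nonconstant complex polynomial without zero at the origin such that either, for
every zero `ζ`, the point `1 / ζ` is a zero of the same multiplicity, or, for every zero `ζ`, the
reflected point `1 / conj ζ` is a zero of the same multiplicity. Then the image of the open unit
disc under `P` contains an open disc of radius the largest modulus of a coefficient of `P`. -/
theorem result (P : Polynomial ℂ) (hn : 1 ≤ P.natDegree)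
    (hP : (∀ ζ : ℂ, P.eval ζ = 0 → ζ ≠ 0 ∧ P.rootMultiplicity (1 / ζ) = P.rootMultiplicity ζ) ∨
      (∀ ζ : ℂ, P.eval ζ = 0 →
        ζ ≠ 0 ∧ P.rootMultiplicity (1 / (starRingEnd ℂ) ζ) = P.rootMultiplicity ζ)) :
    ∃ w₀ : ℂ,
      Metric.ball w₀
          ((Finset.range (P.natDegree + 1)).sup' Finset.nonempty_range_add_one
            (fun k => ‖P.coeff k‖))
        ⊆ (fun z => P.eval z) '' Metric.ball (0 : ℂ) 1 := by
  rcases hP with hP | hP
  · exact Pool.Agent.Helper140.SelfInv.A.main_inv P hn hP
  · exact Pool.Agent.Helper140.SelfInv.A.main_conj P hn hP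

end Pool.Agent.Results.MP_c7fa02_an.BothReflections
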