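import Mathlib
import Pool.Agent.Helper140.SelfInv

/-!
The image of the open unit disc under a nonconstant self-inversive polynomial `P`
(zeros, with multiplicity, are symmetric under `ζ ↦ 1/ζ`) contains an open disc of radius
`A = max_k |a_k|`.
-/

namespace Pool.Agent.Results.MP_c7fa02_an.DiscTheorem

/-- Q1 of the problem, answered positively: if `P` is a nonconstant complex polynomial such that every
zero `ζ` of `P` is nonzero and `1/ζ` has the same multiplicity as `ζ`, then `P(𝔻)` contains an open
disc whose radius is the largest modulus of a coefficient of `P`. -/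
theorem result (P : Polynomial ℂ) (hn : 1 ≤ P.natDegree)
    (hP : ∀ ζ : ℂ, P.eval ζ = 0 → ζ ≠ 0 ∧ P.rootMultiplicity (1 / ζ) = P.rootMultiplicity ζ) :
    ∃ w₀ : ℂ,
      Metric.ball w₀
          ((Finset.range (P.natDegree + 1)).sup' Finset.nonempty_range_add_one
            (fun k => ‖P.coeff k‖))
        ⊆ (fun z => P.eval z) '' Metric.ball (0 : ℂ) 1 :=
  Pool.Agent.Helper140.SelfInv.A.main_inv P hn hP

end Pool.Agent.Results.MP_c7fa02_an.DiscTheorem
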