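import Mathlib
import Pool.Agent.Helper140.SelfInv

/-!
The same theorem for the classical notion of a self-inversive polynomial: zeros, with
multiplicity, are symmetric with respect to the unit circle, `ζ ↦ 1 / conj ζ`.
-/

namespace Pool.Agent.Results.MP_c7fa02_an.DiscTheoremConj

/-- If `P` is a nonconstant complex polynomial such that every zero `ζ` of `P` is nonzero and
`1 / conj ζ` has the same multiplicity as `ζ`, then `P(𝔻)` contains an open disc whose radius is the
largest modulus of a coefficient of `P`. -/
theorem result (P : Polynomial ℂ) (hn : 1 ≤ P.natDegree)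
    (hP : ∀ ζ : ℂ, P.eval ζ = 0 →
      ζ ≠ 0 ∧ P.rootMultiplicity (1 / (starRingEnd ℂ) ζ) = P.rootMultiplicity ζ) :
    ∃ w₀ : ℂ,
      Metric.ball w₀
          ((Finset.range (P.natDegree + 1)).sup' Finset.nonempty_range_add_one
            (fun k => ‖P.coeff k‖))
        ⊆ (fun z => P.eval z) '' Metric.ball (0 : ℂ) 1 :=
  Pool.Agent.Helper140.SelfInv.A.main_conj P hn hP

end Pool.Agent.Results.MP_c7fa02_an.DiscTheoremConj
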